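import Mathlib
import Pool.Agent.H46.LC5
import Pool.Agent.H46.LC7

/-!
# Joins with large cliques are enumeratively chromatic-choosable

For every finite nonempty graph `G` there is `p₀` such that `G ∨ K_p` is enumeratively
chromatic-choosable for all `p ≥ p₀`.
-/

namespace Pool.Agent.Results.MP_e82249_co.JoinLargeClique

open Finset

/-- The join of `G` and `H`: their disjoint union together with all edges between them. -/
def join {V W : Type*} (G : SimpleGraph V) (H : SimpleGraph W) : SimpleGraph (V ⊕ W) :=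
  (G ⊕g H) ⊔ completeBipartiteGraph V W

/-- `P(G, m)`: the number of proper colourings of `G` with colours in `Fin m`. -/
noncomputable def chromPoly {V : Type*} (G : SimpleGraph V) (m : ℕ) : ℕ :=
  Nat.card (G.Coloring (Fin m))

/-- `P(G, L)`: the number of proper colourings `f` of `G` with `f v ∈ L v` for all `v`. -/
noncomputable def listCount {V : Type*} (G : SimpleGraph V) (L : V → Finset ℕ) : ℕ :=
  Nat.card {f : G.Coloring ℕ // ∀ v, f v ∈ L v}

/-- The list colour function `P_ℓ(G, m)`: the minimum of `P(G, L)` over all assignments `L` of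
lists of size `m`. -/
noncomputable def listColorFunction {V : Type*} (G : SimpleGraph V) (m : ℕ) : ℕ :=
  sInf {k : ℕ | ∃ L : V → Finset ℕ, (∀ v, (L v).card = m) ∧ listCount G L = k}

/-- `G` is enumeratively chromatic-choosable: `P_ℓ(G, m) = P(G, m)` for all `m ≥ χ(G)`. -/
def EnumChromaticChoosable {V : Type*} (G : SimpleGraph V) : Prop :=
  ∀ m : ℕ, G.chromaticNumber ≤ (m : ℕ∞) → listColorFunction G m = chromPoly G m

open Pool.Agent.H46.LC

theorem listCount_eq {V : Type*} [Fintype V] [DecidableEq V] (G : SimpleGraph V)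
    (L : V → Finset ℕ) : listCount G L = N G L := by
  have e : {f : G.Coloring ℕ // ∀ v, f v ∈ L v} ≃ {f : V → ℕ // f ∈ cols G L} :=
    { toFun := fun f => ⟨fun v => f.1 v, mem_cols.2 ⟨f.2, fun _ _ h => f.1.valid h⟩⟩
      invFun := fun f => ⟨SimpleGraph.Coloring.mk f.1 (fun h => (mem_cols.1 f.2).2 _ _ h),
        (mem_cols.1 f.2).1⟩
      left_inv := fun f => by
        apply Subtype.ext
        rfl
      right_inv := fun f => rfl }
  rw [listCount, Nat.card_congr e, Nat.card_eq_fintype_card, Fintype.card_coe, N]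

theorem chromPoly_eq {V : Type*} [Fintype V] [DecidableEq V] (G : SimpleGraph V) (m : ℕ) :
    chromPoly G m = Pn G m := by
  have e : G.Coloring (Fin m) ≃ {f : V → ℕ // f ∈ cols G (fun _ => Finset.range m)} :=
    { toFun := fun f => ⟨fun v => (f v : ℕ), mem_cols.2 ⟨fun v => Finset.mem_range.2 (f v).2,
        fun _ _ h h' => f.valid h (Fin.ext h')⟩⟩
      invFun := fun f => SimpleGraph.Coloring.mk
        (fun v => (⟨f.1 v, Finset.mem_range.1 ((mem_cols.1 f.2).1 v)⟩ : Fin m))
        (fun h h' => (mem_cols.1 f.2).2 _ _ h (Fin.mk.inj_iff.1 h'))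
      left_inv := fun f => rfl
      right_inv := fun f => rfl }
  rw [chromPoly, Nat.card_congr e, Nat.card_eq_fintype_card, Fintype.card_coe, Pn, N]

/-- The statement that constant lists are optimal for `G ∨ K_p` with `q` spare colours. -/
def Opt {V : Type*} [Fintype V] [DecidableEq V] (G : SimpleGraph V) (p q : ℕ) : Prop :=
  ∀ L : V ⊕ Fin p → Finset ℕ, (∀ x, (L x).card = p + q) →
    (p + q).descFactorial p * Pn G q ≤ N (Hp G p) L

theorem opt_succ {V : Type*} [Fintype V] [DecidableEq V] (G : SimpleGraph V) (p q : ℕ)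
    (hq : 1 ≤ q) (h : Opt G p q) : Opt G (p + 1) q := by
  intro L hL
  refine le_trans ?_ (Bm_le G (p + 1) _ L hL)
  refine le_trans ?_ (Bm_step G p q (by omega))
  obtain ⟨L', hL', hB⟩ := Bm_attained G p (p + q)
  rw [← hB]
  have : p + 1 + q = (p + q) + 1 := by omega
  rw [this, Nat.succ_descFactorial_succ, mul_assoc]
  exact Nat.mul_le_mul_left _ (h L' hL')

theorem opt_large {V : Type*} [Fintype V] [DecidableEq V] (G : SimpleGraph V) (q : ℕ)
    (hm : 32 * Fintype.card V ^ 3 + 2 * Fintype.card V ^ 2 + 4 * Fintype.card V + 10 ≤ q)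
    (p : ℕ) : Opt G p q := by
  induction p with
  | zero =>
    intro L hL
    have hLg : L = glue (fun v => L (.inl v)) ∅ 0 := by
      funext x
      rcases x with (u | i)
      · rfl
      · exact i.elim0
    rw [hLg, N_glue_zero, Nat.zero_add, Nat.descFactorial_zero, one_mul]
    apply donner G q hm
    intro w
    rw [hL, Nat.zero_add]
  | succ p ih => exact opt_succ G p q (by omega) ih

theorem exists_uniform (Q : ℕ → ℕ → Prop) (h : ∀ q, ∃ p₀, ∀ p, p₀ ≤ p → Q p q) (M : ℕ) :
    ∃ P, ∀ q, q < M → ∀ p, P ≤ p → Q p q := by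
  induction M with
  | zero => exact ⟨0, fun q hq => absurd hq (Nat.not_lt_zero q)⟩
  | succ M ih =>
    obtain ⟨P, hP⟩ := ih
    obtain ⟨P', hP'⟩ := h M
    refine ⟨max P P', fun q hq p hp => ?_⟩
    rcases Nat.lt_succ_iff_lt_or_eq.1 hq with h1 | h1
    · exact hP q h1 p (le_trans (le_max_left _ _) hp)
    · subst h1
      exact hP' p (le_trans (le_max_right _ _) hp)

/-- For every finite nonempty graph `G` there is `p₀ ≥ 1` such that for all `p ≥ p₀` the join
`G ∨ K_p` is enumeratively chromatic-choosable. -/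
theorem result {V : Type*} [Finite V] [Nonempty V] (G : SimpleGraph V) :
    ∃ p₀ : ℕ, 1 ≤ p₀ ∧ ∀ p : ℕ, p₀ ≤ p →
      EnumChromaticChoosable (join G (⊤ : SimpleGraph (Fin p))) := by
  classical
  haveI : Fintype V := Fintype.ofFinite V
  obtain ⟨P, hP⟩ := exists_uniform (fun p q => 1 ≤ q → 1 ≤ Pn G q → Opt G p q) (fun q => by
    by_cases hq : 1 ≤ q ∧ 1 ≤ Pn G q
    · obtain ⟨f, hf⟩ : (cols G (fun _ => Finset.range q)).Nonempty := Finset.card_pos.1 hq.2
      rw [mem_cols] at hf
      obtain ⟨p₀, hp₀⟩ := eventually_const G q hq.1 hq.2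
        (fun v => ⟨f v, Finset.mem_range.1 (hf.1 v)⟩)
        (fun u v huv h => hf.2 u v huv (Fin.mk.inj_iff.1 h))
      exact ⟨p₀, fun p hp _ _ => hp₀ p hp⟩
    · exact ⟨0, fun p _ h1 h2 => absurd ⟨h1, h2⟩ hq⟩)
    (32 * Fintype.card V ^ 3 + 2 * Fintype.card V ^ 2 + 4 * Fintype.card V + 10)
  refine ⟨max 1 P, le_max_left _ _, fun p hp m hm => ?_⟩
  have hp1 : 1 ≤ p := le_trans (le_max_left _ _) hp
  have hpP : P ≤ p := le_trans (le_max_right _ _) hp
  change listColorFunction (Hp G p) m = chromPoly (Hp G p) m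
  have hchrom : chromPoly (Hp G p) m = m.descFactorial p * Pn G (m - p) := by
    rw [chromPoly_eq, Pn, glue_self, N_glue_const, Finset.card_range]
  have hcol : (Hp G p).Colorable m := SimpleGraph.chromaticNumber_le_iff_colorable.1 hm
  have hpos : 0 < chromPoly (Hp G p) m := by
    rw [chromPoly]
    haveI : Finite ((Hp G p).Coloring (Fin m)) :=
      Finite.of_injective (fun f => (f : V ⊕ Fin p → Fin m)) DFunLike.coe_injective
    haveI : Nonempty ((Hp G p).Coloring (Fin m)) := hcol
    exact Nat.card_pos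
  rw [hchrom] at hpos
  have hpm : p ≤ m := by
    by_contra hcon
    rw [Nat.descFactorial_eq_zero_iff_lt.2 (by omega)] at hpos
    omega
  obtain ⟨q, rfl⟩ : ∃ q, m = p + q := ⟨m - p, by omega⟩
  rw [Nat.add_sub_cancel_left] at hpos hchrom
  have hPn : 1 ≤ Pn G q := Nat.pos_of_mul_pos_left hpos
  have hq : 1 ≤ q := by
    rcases Nat.eq_zero_or_pos q with h | h
    · exfalso
      subst h
      obtain ⟨f, hf⟩ : (cols G (fun _ => Finset.range 0)).Nonempty := Finset.card_pos.1 hPn
      rw [mem_cols] at hf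
      obtain ⟨v⟩ := (inferInstance : Nonempty V)
      have := hf.1 v
      simp at this
    · exact h
  have hopt : Opt G p q := by
    by_cases hqM : q < 32 * Fintype.card V ^ 3 + 2 * Fintype.card V ^ 2 + 4 * Fintype.card V + 10
    · exact hP q hqM p hpP hq hPn
    · exact opt_large G q (by omega) p
  rw [hchrom]
  apply le_antisymm
  · apply Nat.sInf_le
    refine ⟨fun _ => Finset.range (p + q), fun _ => Finset.card_range _, ?_⟩
    rw [listCount_eq, glue_self, N_glue_const, Finset.card_range, Nat.add_sub_cancel_left]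
  · apply le_csInf
    · exact ⟨_, fun _ => Finset.range (p + q), fun _ => Finset.card_range _, rfl⟩
    · rintro k ⟨L, hL, rfl⟩
      rw [listCount_eq]
      exact hopt L hL

end Pool.Agent.Results.MP_e82249_co.JoinLargeClique
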